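import Mathlib

set_option autoImplicit false

/-! The Zeckendorf expansions of the multiples of a Fibonacci number. -/

namespace Pool.Agent.helper159_ZK

open Real


/-- the inverse of the golden ratio -/
noncomputable def q : ℝ := -Real.goldenConj

theorem q_pos : 0 < q := by
  unfold q; have := Real.goldenConj_neg; linarith

theorem q_sq : q ^ 2 = 1 - q := by
  unfold q
  have := Real.goldenConj_sq
  nlinarith

theorem q_lt : q < 31 / 50 := by
  by_contra h
  push Not at h
  have h1 := q_sq
  nlinarith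

theorem q_lt_one : q < 1 := q_lt.trans (by norm_num)

theorem phi_mul_q : Real.goldenRatio * q = 1 := by
  unfold q
  have := Real.goldenRatio_mul_goldenConj
  linarith

theorem psi_eq : Real.goldenConj = -q := by unfold q; ring

theorem abs_psi_pow (n : ℕ) : |Real.goldenConj ^ n| = q ^ n := by
  rw [psi_eq, abs_pow, abs_neg, abs_of_pos q_pos]

theorem fib_le_pow (n : ℕ) : (Nat.fib n : ℝ) ≤ Real.goldenRatio ^ n := by
  have key : ∀ n : ℕ, (Nat.fib n : ℝ) ≤ Real.goldenRatio ^ n ∧ (Nat.fib (n + 1) : ℝ) ≤ Real.goldenRatio ^ (n + 1) := by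
    intro n
    induction n with
    | zero => simpa using Real.one_lt_goldenRatio.le
    | succ n ih =>
      refine ⟨ih.2, ?_⟩
      rw [Nat.fib_add_two]
      push_cast
      have h1 : Real.goldenRatio ^ (n + 1 + 1) = Real.goldenRatio ^ n + Real.goldenRatio ^ (n + 1) := by
        have := Real.goldenRatio_sq
        rw [pow_succ, pow_succ]
        linear_combination Real.goldenRatio ^ n * this
      rw [h1]
      exact add_le_add ih.1 ih.2
  exact (key n).1

/-- the sum of the powers of the conjugate -/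
noncomputable def P (l : List ℕ) : ℝ := (l.map (fun i => Real.goldenConj ^ i)).sum

theorem P_append (l₁ l₂ : List ℕ) : P (l₁ ++ l₂) = P l₁ + P l₂ := by
  simp [P]

theorem P_single (b : ℕ) : P [b] = Real.goldenConj ^ b := by simp [P]

theorem P_le (l : List ℕ) : l.Pairwise (fun a b => b + 2 ≤ a) → ∀ s : ℕ, (∀ a ∈ l, s ≤ a) →
    |P l| * q ≤ q ^ s := by
  induction l using List.reverseRecOn with
  | nil =>
    intro _ s _
    simp only [P, List.map_nil, List.sum_nil, abs_zero, zero_mul]
    exact pow_nonneg q_pos.le _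
  | append_singleton l b ih =>
    intro h s hs
    rw [List.pairwise_append] at h
    obtain ⟨h1, -, h2⟩ := h
    have h3 := ih h1 (b + 2) (fun a ha => h2 a ha b (List.mem_singleton_self b))
    have hsb : s ≤ b := hs b (by simp)
    rw [P_append, P_single]
    have h4 : |P l + Real.goldenConj ^ b| ≤ |P l| + q ^ b := by
      refine (abs_add_le _ _).trans ?_
      rw [abs_psi_pow]
    have h5 : q ^ b ≤ q ^ s := pow_le_pow_of_le_one q_pos.le q_lt_one.le hsb
    have h6 : q ^ (b + 2) = q ^ b * (1 - q) := by rw [pow_add, q_sq]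
    have h7 : |P l + Real.goldenConj ^ b| * q ≤ (|P l| + q ^ b) * q := mul_le_mul_of_nonneg_right h4 q_pos.le
    rw [h6] at h3
    nlinarith

theorem P_ge (l : List ℕ) (b : ℕ) (h : (l ++ [b]).Pairwise (fun a b => b + 2 ≤ a)) :
    q ^ (b + 2) ≤ |P (l ++ [b])| := by
  rw [List.pairwise_append] at h
  obtain ⟨h1, -, h2⟩ := h
  have h3 := P_le l h1 (b + 2) (fun a ha => h2 a ha b (List.mem_singleton_self b))
  rw [P_append, P_single]
  have h4 : q ^ b - |P l| ≤ |P l + Real.goldenConj ^ b| := by
    have := abs_sub_abs_le_abs_sub (Real.goldenConj ^ b) (-(P l))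
    rw [abs_neg, abs_psi_pow, sub_neg_eq_add, add_comm] at this
    linarith
  have h6 : q ^ (b + 2) = q ^ b * (1 - q) := by rw [pow_add, q_sq]
  have h7 : q ^ (b + 2) = q ^ (b + 1) * q := by ring
  have h8 : |P l| ≤ q ^ (b + 1) := by
    rw [h7] at h3
    exact le_of_mul_le_mul_right h3 q_pos
  have h9 : q ^ (b + 1) = q ^ b * q := pow_succ _ _
  rw [h6]
  nlinarith

instance : IsTrans ℕ fun a b ↦ b + 2 ≤ a where
  trans _a _b _c hba hcb := hcb.trans <| le_self_add.trans hba

theorem zeck_iff (l : List ℕ) : l.IsZeckendorfRep ↔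
    l.Pairwise (fun a b => b + 2 ≤ a) ∧ ∀ a ∈ l, 2 ≤ a := by
  unfold List.IsZeckendorfRep
  rw [List.isChain_iff_pairwise, List.pairwise_append]
  simp

theorem map_sum_real (l : List ℕ) :
    (((l.map (fun i => Nat.fib (i + 1))).sum : ℕ) : ℝ) - Real.goldenRatio * (((l.map Nat.fib).sum : ℕ) : ℝ) = P l := by
  induction l with
  | nil => simp [P]
  | cons a l ih =>
    have h := Real.fib_succ_sub_goldenRatio_mul_fib a
    simp only [P, List.map_cons, List.sum_cons] at ih ⊢
    rw [Nat.cast_add, Nat.cast_add, ← ih, ← h]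
    ring

/-- the Zeckendorf expansion of `t F_j`, `1 ≤ t ≤ F_L`, uses only indices between `j - L - 2` and `j + L - 1` -/
theorem mult_range (j L t : ℕ) (ht : 1 ≤ t) (htL : t ≤ Nat.fib L) (hjL : L + 3 ≤ j) :
    ∀ i ∈ (t * Nat.fib j).zeckendorf, j ≤ i + L + 2 ∧ i + 1 ≤ j + L := by
  set l := (t * Nat.fib j).zeckendorf with hl
  have hrep := (zeck_iff l).1 (Nat.isZeckendorfRep_zeckendorf (t * Nat.fib j))
  have hsum : (l.map Nat.fib).sum = t * Nat.fib j := Nat.sum_zeckendorf_fib _
  have hL : 1 ≤ L := by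
    rcases Nat.eq_zero_or_pos L with h | h
    · rw [h] at htL; simp at htL; omega
    · exact h
  have hfj : 0 < Nat.fib j := Nat.fib_pos.2 (by omega)
  have htq : (t : ℝ) * q ^ j ≤ q ^ (j - L) := by
    have h1 : (t : ℝ) ≤ Real.goldenRatio ^ L := (by exact_mod_cast htL : (t : ℝ) ≤ Nat.fib L).trans (fib_le_pow L)
    have h2 : q ^ j = q ^ (j - L) * q ^ L := by rw [← pow_add]; congr 1; omega
    have h3 : Real.goldenRatio ^ L * q ^ L = 1 := by rw [← mul_pow, phi_mul_q, one_pow]
    have h4 : 0 ≤ q ^ j := pow_nonneg q_pos.le _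
    calc (t : ℝ) * q ^ j ≤ Real.goldenRatio ^ L * q ^ j := mul_le_mul_of_nonneg_right h1 h4
      _ = q ^ (j - L) := by rw [h2]; linear_combination q ^ (j - L) * h3
  have hq3 : q ^ (j - L) ≤ q ^ 3 := pow_le_pow_of_le_one q_pos.le q_lt_one.le (by omega)
  have hP1 : |P l| ≤ q := by
    have := P_le l hrep.1 2 hrep.2
    rw [pow_two] at this
    exact le_of_mul_le_mul_right this q_pos
  have hS := map_sum_real l
  rw [hsum] at hS
  have hT := Real.fib_succ_sub_goldenRatio_mul_fib j
  set S₂ := (l.map (fun i => Nat.fib (i + 1))).sum with hS₂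
  have hdiff : (S₂ : ℝ) - ((t * Nat.fib (j + 1) : ℕ) : ℝ) = P l - t * Real.goldenConj ^ j := by
    push_cast at hS ⊢
    rw [← hS, ← hT]; ring
  have habs : |(S₂ : ℝ) - ((t * Nat.fib (j + 1) : ℕ) : ℝ)| < 1 := by
    rw [hdiff]
    have h1 : |P l - t * Real.goldenConj ^ j| ≤ |P l| + t * q ^ j := by
      refine (abs_sub _ _).trans ?_
      rw [abs_mul, abs_psi_pow, Nat.abs_cast]
    have h2 : q ^ 3 = 2 * q - 1 := by
      have : q ^ 3 = q * q ^ 2 := by ring
      rw [this, q_sq]; nlinarith [q_sq]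
    have h3 := q_lt
    linarith
  have hint : S₂ = t * Nat.fib (j + 1) := by
    have h1 : |((S₂ : ℤ) : ℝ) - ((t * Nat.fib (j + 1) : ℕ) : ℤ)| < 1 := by exact_mod_cast habs
    have h2 : |(S₂ : ℤ) - ((t * Nat.fib (j + 1) : ℕ) : ℤ)| < 1 := by exact_mod_cast h1
    have h3 := Int.abs_lt_one_iff.1 h2
    omega
  have hPl : P l = t * Real.goldenConj ^ j := by
    rw [hint, sub_self] at hdiff
    linarith
  have hPabs : |P l| ≤ q ^ (j - L) := by
    rw [hPl, abs_mul, abs_psi_pow, Nat.abs_cast]; exact htq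
  have hne : l ≠ [] := by
    intro h
    rw [h] at hsum
    simp at hsum
    omega
  obtain ⟨l', b, hlb⟩ := (List.eq_nil_or_concat l).resolve_left hne
  rw [List.concat_eq_append] at hlb
  rw [hlb] at hrep hPabs
  have hb := P_ge l' b hrep.1
  have hb2 : j - L ≤ b + 2 := by
    by_contra hcon
    push Not at hcon
    have h1 : q ^ (j - L) < q ^ (b + 2) := pow_lt_pow_right_of_lt_one₀ q_pos q_lt_one hcon
    linarith
  intro i hi
  constructor
  · rw [hlb, List.mem_append, List.mem_singleton] at hi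
    rcases hi with hi | hi
    · have := (List.pairwise_append.1 hrep.1).2.2 i hi b (List.mem_singleton_self b)
      omega
    · omega
  · have h1 : Nat.fib i ≤ t * Nat.fib j := by
      rw [← hsum]
      exact List.single_le_sum (by intro x _; exact Nat.zero_le _) _ (List.mem_map_of_mem hi)
    have h2 : t * Nat.fib j ≤ Nat.fib (L - 1 + (j - 1) + 1) := by
      rw [Nat.fib_add]
      have e1 : L - 1 + 1 = L := by omega
      have e2 : j - 1 + 1 = j := by omega
      rw [e1, e2]
      have := Nat.mul_le_mul_right (Nat.fib j) htL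
      omega
    by_contra hcon
    have h3 : Nat.fib (L - 1 + (j - 1) + 1) < Nat.fib i := (Nat.fib_lt_fib (by omega)).2 (by omega)
    omega

/-- concatenation of Zeckendorf expansions -/
theorem concat {A N B k r : ℕ} (hA : ∀ i ∈ A.zeckendorf, r ≤ i) (hB : ∀ i ∈ B.zeckendorf, i ≤ k)
    (hN : ∀ i ∈ N.zeckendorf, k + 2 ≤ i ∧ i + 2 ≤ r) (hkr : k + 2 ≤ r) :
    (A + N + B).zeckendorf = A.zeckendorf ++ N.zeckendorf ++ B.zeckendorf := by
  obtain ⟨a1, a2⟩ := (zeck_iff _).1 (Nat.isZeckendorfRep_zeckendorf A)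
  obtain ⟨n1, n2⟩ := (zeck_iff _).1 (Nat.isZeckendorfRep_zeckendorf N)
  obtain ⟨b1, b2⟩ := (zeck_iff _).1 (Nat.isZeckendorfRep_zeckendorf B)
  have h : (A.zeckendorf ++ N.zeckendorf ++ B.zeckendorf).IsZeckendorfRep := by
    rw [zeck_iff]
    constructor
    · rw [List.pairwise_append, List.pairwise_append]
      refine ⟨⟨a1, n1, fun x hx y hy => ?_⟩, b1, fun x hx y hy => ?_⟩
      · have h1 := hA x hx
        have h2 := (hN y hy).2
        omega
      · have h2 := hB y hy
        rcases List.mem_append.1 hx with h | h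
        · have h1 := hA x h
          omega
        · have h1 := (hN x h).1
          omega
    · intro x hx
      rcases List.mem_append.1 hx with h | h
      · rcases List.mem_append.1 h with h' | h'
        · exact a2 x h'
        · exact n2 x h'
      · exact b2 x h
  have h2 := Nat.zeckendorf_sum_fib h
  rw [← h2]
  congr 1
  rw [List.map_append, List.map_append, List.sum_append, List.sum_append, Nat.sum_zeckendorf_fib,
    Nat.sum_zeckendorf_fib, Nat.sum_zeckendorf_fib]

end Pool.Agent.helper159_ZK
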