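import Mathlib
import Pool.Agent.Helper923.PNT
import Pool.Agent.helper159_ZK.Zeck

set_option autoImplicit false

/-! Elementary estimates. -/

namespace Pool.Agent.helper159_ZK

open Filter Topology

/-- the record scale as a function of the logarithm -/
noncomputable def F (l : ℝ) : ℝ :=
  l * (Real.log l) ^ 2 * Real.log (Real.log (Real.log l)) / (Real.log (Real.log l)) ^ 2

theorem F_mono : ∃ R : ℝ, ∀ L : ℝ, R ≤ L → ∀ L' : ℝ, L ≤ L' → L' ≤ 2 * L →
    0 ≤ F L ∧ F L ≤ 4 * F L' := by
  have hlog := Real.tendsto_log_atTop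
  have hll : Tendsto (fun l : ℝ => Real.log (Real.log l)) atTop atTop := hlog.comp hlog
  have hlll : Tendsto (fun l : ℝ => Real.log (Real.log (Real.log l))) atTop atTop := hlog.comp hll
  have hev := (((hlog.eventually_ge_atTop 1).and (hll.eventually_ge_atTop 1)).and
    (hlll.eventually_ge_atTop 1)).and (eventually_ge_atTop (1 : ℝ))
  obtain ⟨R, hR⟩ := eventually_atTop.1 hev
  refine ⟨R, fun L hL L' h1 h2 => ?_⟩
  obtain ⟨⟨⟨a1, a2⟩, a3⟩, a4⟩ := hR L hL
  set u := Real.log L with hu
  set s := Real.log u with hs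
  set w := Real.log s with hw
  have hL0 : 0 < L := by linarith
  have hL'0 : 0 < L' := by linarith
  have hl2 : Real.log 2 ≤ 1 := by
    have := Real.log_two_lt_d9
    linarith
  set u' := Real.log L' with hu'
  have hu'1 : u ≤ u' := Real.log_le_log hL0 h1
  have hu'2 : u' ≤ 2 * u := by
    have h3 : u' ≤ Real.log (2 * L) := Real.log_le_log hL'0 h2
    rw [Real.log_mul (by norm_num) hL0.ne', ← hu] at h3
    linarith
  have hu0 : 0 < u := by linarith
  set s' := Real.log u' with hs'
  have hs'1 : s ≤ s' := Real.log_le_log hu0 hu'1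
  have hs'2 : s' ≤ 2 * s := by
    have h3 : s' ≤ Real.log (2 * u) := Real.log_le_log (by linarith) hu'2
    rw [Real.log_mul (by norm_num) hu0.ne', ← hs] at h3
    linarith
  have hs0 : 0 < s := by linarith
  set w' := Real.log s' with hw'
  have hw'1 : w ≤ w' := Real.log_le_log hs0 hs'1
  have hw0 : 0 < w := by linarith
  have hFL : F L = L * u ^ 2 * w / s ^ 2 := rfl
  have hFL' : F L' = L' * u' ^ 2 * w' / s' ^ 2 := rfl
  rw [hFL, hFL']
  refine ⟨by positivity, ?_⟩
  have hs'0 : 0 < s' := by linarith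
  have h5 : L * u ^ 2 * w ≤ L' * u' ^ 2 * w' := by gcongr
  have h6 : 0 ≤ L' * u' ^ 2 * w' := le_trans (by positivity) h5
  calc L * u ^ 2 * w / s ^ 2 ≤ L' * u' ^ 2 * w' / s ^ 2 := by gcongr
    _ = 4 * (L' * u' ^ 2 * w' / (2 * s) ^ 2) := by
        field_simp; ring
    _ ≤ 4 * (L' * u' ^ 2 * w' / s' ^ 2) := by
        apply mul_le_mul_of_nonneg_left _ (by norm_num)
        apply div_le_div_of_nonneg_left h6 (by positivity)
        gcongr

theorem thr_large (T : ℝ) : ∀ᶠ x : ℝ in atTop,
    T ≤ Real.exp (Real.log (Real.log x) * Real.log (Real.log (Real.log (Real.log x))) /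
        (20 * Real.log (Real.log (Real.log x)))) := by
  have hlog := Real.tendsto_log_atTop
  have hll : Tendsto (fun l : ℝ => Real.log (Real.log l)) atTop atTop := hlog.comp hlog
  have key : ∀ᶠ s : ℝ in atTop, T ≤ Real.exp (s * Real.log (Real.log s) / (20 * Real.log s)) := by
    have h1 := Real.isLittleO_log_id_atTop.def (show (0 : ℝ) < 1 / (20 * (|T| + 1)) by positivity)
    have h2 := ((h1.and (hlog.eventually_ge_atTop 1)).and (hll.eventually_ge_atTop 1)).and
      (eventually_ge_atTop (1 : ℝ))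
    filter_upwards [h2] with s hs
    obtain ⟨⟨⟨a1, a2⟩, a3⟩, a4⟩ := hs
    have hls : 0 < Real.log s := by linarith
    rw [Real.norm_eq_abs, abs_of_pos hls, id, Real.norm_eq_abs,
      abs_of_pos (show (0 : ℝ) < s by linarith)] at a1
    have h3 : |T| + 1 ≤ s / (20 * Real.log s) := by
      rw [le_div_iff₀ (by positivity)]
      have h4 : 0 < 20 * (|T| + 1) := by positivity
      rw [one_div_mul_eq_div, le_div_iff₀ h4] at a1
      linarith
    have h4 : s / (20 * Real.log s) ≤ s * Real.log (Real.log s) / (20 * Real.log s) := by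
      apply div_le_div_of_nonneg_right _ (by positivity)
      nlinarith
    have h5 := Real.add_one_le_exp (s * Real.log (Real.log s) / (20 * Real.log s))
    have h6 := le_abs_self T
    linarith
  exact hll.eventually key

/-- prime number theorem in short intervals -/
theorem exists_prime_Ioc (δ : ℝ) (hδ : 0 < δ) : ∀ᶠ y : ℝ in atTop,
    ∃ p : ℕ, p.Prime ∧ y < p ∧ (p : ℝ) ≤ (1 + δ) * y := by
  have h1 := Pool.Agent.Helper923.PNT.theta_div_tendsto
  have h2 : Tendsto (fun y : ℝ => Chebyshev.theta ((1 + δ) * y) / y) atTop (𝓝 (1 + δ)) := by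
    have h3 : Tendsto (fun y : ℝ => (1 + δ) * y) atTop atTop :=
      tendsto_id.const_mul_atTop (by linarith)
    have h4 := (h1.comp h3).const_mul (1 + δ)
    rw [mul_one] at h4
    refine h4.congr' ?_
    filter_upwards [eventually_gt_atTop 0] with y hy
    simp only [Function.comp]
    have : 1 + δ ≠ 0 := by linarith
    field_simp
  have h5 := (h2.sub h1).eventually (lt_mem_nhds (show (0 : ℝ) < 1 + δ - 1 by linarith))
  filter_upwards [h5, eventually_gt_atTop 0] with y hy hy0
  by_contra hcon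
  push Not at hcon
  have h6 : Chebyshev.theta ((1 + δ) * y) = Chebyshev.theta y := by
    unfold Chebyshev.theta
    apply Finset.sum_congr _ (fun _ _ => rfl)
    ext p
    simp only [Finset.mem_filter, Finset.mem_Ioc]
    have h7 : y ≤ (1 + δ) * y := by nlinarith
    constructor
    · rintro ⟨⟨h8, h9⟩, h10⟩
      refine ⟨⟨h8, ?_⟩, h10⟩
      have h11 : (p : ℝ) ≤ (1 + δ) * y := (Nat.le_floor_iff (by positivity)).1 h9
      apply Nat.le_floor
      by_contra h12
      push Not at h12
      exact absurd h11 (not_le.2 (hcon p h10 h12))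
    · rintro ⟨⟨h8, h9⟩, h10⟩
      exact ⟨⟨h8, h9.trans (Nat.floor_le_floor h7)⟩, h10⟩
  rw [h6, sub_self] at hy
  exact lt_irrefl _ hy

/-- lower bound for the Fibonacci numbers -/
theorem pow_le_fib (n : ℕ) (hn : 1 ≤ n) : Real.goldenRatio ^ n ≤ Real.goldenRatio ^ 2 * Nat.fib n := by
  have h1 := Real.one_lt_goldenRatio
  have h2 := Real.goldenRatio_sq
  have key : ∀ n : ℕ, Real.goldenRatio ^ (n + 1) ≤ Real.goldenRatio ^ 2 * Nat.fib (n + 1) ∧
      Real.goldenRatio ^ (n + 2) ≤ Real.goldenRatio ^ 2 * Nat.fib (n + 2) := by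
    intro n
    induction n with
    | zero =>
      constructor
      · norm_num
      · norm_num
    | succ n ih =>
      refine ⟨ih.2, ?_⟩
      have e : n + 1 + 2 = (n + 1) + 2 := rfl
      rw [e, Nat.fib_add_two]
      push_cast
      have h3 : Real.goldenRatio ^ (n + 1 + 2) = Real.goldenRatio ^ (n + 1) + Real.goldenRatio ^ (n + 2) := by
        rw [pow_add, h2, pow_succ (Real.goldenRatio) (n + 1)]
        ring
      have e2 : n + 1 + 1 = n + 2 := rfl
      rw [h3, e2, mul_add]
      exact add_le_add ih.1 ih.2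
  obtain ⟨m, rfl⟩ := Nat.exists_eq_add_of_le' hn
  exact (key m).1

theorem log_fib_ge (n : ℕ) (hn : 1 ≤ n) :
    ((n : ℝ) - 2) * Real.log Real.goldenRatio ≤ Real.log (Nat.fib n) := by
  have hf : 0 < Nat.fib n := Nat.fib_pos.2 (by omega)
  have hfR : (0 : ℝ) < Nat.fib n := by exact_mod_cast hf
  have h1 := Real.log_le_log (pow_pos Real.goldenRatio_pos n) (pow_le_fib n hn)
  rw [Real.log_mul (pow_pos Real.goldenRatio_pos 2).ne' hfR.ne', Real.log_pow, Real.log_pow] at h1
  push_cast at h1
  linarith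

theorem log_fib_le (n : ℕ) (hn : 1 ≤ n) :
    Real.log (Nat.fib n) ≤ n * Real.log Real.goldenRatio := by
  have hf : 0 < Nat.fib n := Nat.fib_pos.2 (by omega)
  have h1 := Real.log_le_log (by exact_mod_cast hf) (fib_le_pow n)
  rw [Real.log_pow] at h1
  exact h1

theorem log_phi_pos : 0 < Real.log Real.goldenRatio := Real.log_pos Real.one_lt_goldenRatio

theorem log_phi_le : Real.log Real.goldenRatio ≤ 1 := by
  have h6 := Real.log_le_log Real.goldenRatio_pos Real.goldenRatio_lt_two.le
  have := Real.log_two_lt_d9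
  linarith

end Pool.Agent.helper159_ZK
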