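import Mathlib
import Pool.Agent.helper159_ZK.Zeck

set_option autoImplicit false

/-! The prime factors of a Fibonacci number of prime index. -/

namespace Pool.Agent.helper159_ZK

open Finset

theorem docagne (k m : ℕ) : (Nat.fib (k + 1) : ℤ) * Nat.fib (k + m) - Nat.fib (k + m + 1) * Nat.fib k =
    (-1) ^ k * Nat.fib m := by
  induction k with
  | zero => simp
  | succ k ih =>
    have h1 : (Nat.fib (k + 1 + 1) : ℤ) = Nat.fib k + Nat.fib (k + 1) := by
      rw [Nat.fib_add_two]; push_cast; ring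
    have h2 : (Nat.fib (k + 1 + m + 1) : ℤ) = Nat.fib (k + m) + Nat.fib (k + m + 1) := by
      have e : k + 1 + m + 1 = (k + m) + 2 := by ring
      rw [e, Nat.fib_add_two]; push_cast; ring
    have h3 : (Nat.fib (k + 1 + m) : ℤ) = Nat.fib (k + m + 1) := by
      have e : k + 1 + m = k + m + 1 := by ring
      rw [e]
    rw [h1, h2, h3, pow_succ]
    linear_combination -ih

/-- a prime factor of `F_j`, `j` prime, is at least `j - 1` -/
theorem prime_factor {j p : ℕ} (hj : j.Prime) (hp : p.Prime) (h : p ∣ Nat.fib j) : j ≤ p + 1 := by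
  have : Fact p.Prime := ⟨hp⟩
  have hnot : ∀ k, 0 < k → k < j → ¬ p ∣ Nat.fib k := by
    intro k hk hkj hd
    have h1 : p ∣ Nat.gcd (Nat.fib j) (Nat.fib k) := Nat.dvd_gcd h hd
    have h2 : Nat.gcd j k = 1 := by
      rcases (Nat.dvd_prime hj).1 (Nat.gcd_dvd_left j k) with h3 | h3
      · exact h3
      · have := Nat.le_of_dvd hk (h3 ▸ Nat.gcd_dvd_right j k)
        omega
    rw [← Nat.fib_gcd, h2, Nat.fib_one] at h1
    exact hp.one_lt.ne' (Nat.dvd_one.1 h1)
  by_contra hcon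
  push Not at hcon
  have hcard : (Finset.univ : Finset (ZMod p)).card < (Finset.Icc 1 (j - 1)).card := by
    rw [Finset.card_univ, ZMod.card, Nat.card_Icc]
    omega
  obtain ⟨k, hk, l, hl, hkl, he⟩ := Finset.exists_ne_map_eq_of_card_lt_of_maps_to hcard
    (f := fun k : ℕ => ((Nat.fib (k + 1) : ℕ) : ZMod p) * ((Nat.fib k : ℕ) : ZMod p)⁻¹)
    (fun _ _ => Finset.mem_coe.2 (Finset.mem_univ _))
  have key : ∀ k l : ℕ, 1 ≤ k → k < l → l ≤ j - 1 →
      ((Nat.fib (k + 1) : ℕ) : ZMod p) * ((Nat.fib k : ℕ) : ZMod p)⁻¹ =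
      ((Nat.fib (l + 1) : ℕ) : ZMod p) * ((Nat.fib l : ℕ) : ZMod p)⁻¹ → False := by
    intro k l hk hkl hl he
    have hk0 : ((Nat.fib k : ℕ) : ZMod p) ≠ 0 := fun h0 =>
      hnot k (by omega) (by omega) ((ZMod.natCast_eq_zero_iff _ _).1 h0)
    have hl0 : ((Nat.fib l : ℕ) : ZMod p) ≠ 0 := fun h0 =>
      hnot l (by omega) (by omega) ((ZMod.natCast_eq_zero_iff _ _).1 h0)
    have h1 : ((Nat.fib (k + 1) : ℕ) : ZMod p) * (Nat.fib l : ℕ) =
        (Nat.fib (l + 1) : ℕ) * (Nat.fib k : ℕ) := by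
      field_simp at he
      linear_combination he
    obtain ⟨m, rfl⟩ := Nat.exists_eq_add_of_lt hkl
    have h2 := congrArg (Int.cast : ℤ → ZMod p) (docagne k (m + 1))
    push_cast at h2
    have e : k + (m + 1) = k + m + 1 := by ring
    rw [e] at h2
    rw [h1, sub_self] at h2
    have h3 : ((Nat.fib (m + 1) : ℕ) : ZMod p) = 0 := by
      rcases mul_eq_zero.1 h2.symm with h4 | h4
      · exact absurd h4 (pow_ne_zero _ (neg_ne_zero.2 one_ne_zero))
      · exact h4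
    exact hnot (m + 1) (by omega) (by omega) ((ZMod.natCast_eq_zero_iff _ _).1 h3)
  rw [Finset.mem_Icc] at hk hl
  rcases lt_or_gt_of_ne hkl with h1 | h1
  · exact key k l hk.1 h1 hl.2 he
  · exact key l k hl.1 h1 hk.2 he.symm

theorem fib_sum {j : ℕ} (hj : j.Prime) (hj5 : 5 ≤ j) :
    ∑ p ∈ (Nat.fib j).primeFactors, 1 / (p : ℝ) ≤ 2 / Real.log ((j : ℝ) - 1) := by
  set S := (Nat.fib j).primeFactors with hS
  have hjR : (5 : ℝ) ≤ j := by exact_mod_cast hj5
  have hbig : ∀ p ∈ S, j - 1 ≤ p := by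
    intro p hp
    rw [hS, Nat.mem_primeFactors] at hp
    have := prime_factor hj hp.1 hp.2.1
    omega
  have hq0 : (0 : ℝ) < (j : ℝ) - 1 := by linarith
  have hlq : 0 < Real.log ((j : ℝ) - 1) := Real.log_pos (by linarith)
  have hcast : ((j - 1 : ℕ) : ℝ) = (j : ℝ) - 1 := by rw [Nat.cast_sub (by omega)]; simp
  have hfib : 0 < Nat.fib j := Nat.fib_pos.2 (by omega)
  have h1 : (j - 1) ^ S.card ≤ Nat.fib j := by
    calc (j - 1) ^ S.card = ∏ _p ∈ S, (j - 1) := by rw [prod_const]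
      _ ≤ ∏ p ∈ S, p := Finset.prod_le_prod' hbig
      _ ≤ Nat.fib j := Nat.le_of_dvd hfib (Nat.prod_primeFactors_dvd _)
  have h2 : (S.card : ℝ) * Real.log ((j : ℝ) - 1) ≤ j := by
    have h3 : Real.log (((j : ℝ) - 1) ^ S.card) ≤ Real.log (Nat.fib j) := by
      apply Real.log_le_log (by positivity)
      rw [← hcast]
      exact_mod_cast h1
    rw [Real.log_pow] at h3
    refine h3.trans ?_
    have h4 : Real.log (Nat.fib j) ≤ Real.log (Real.goldenRatio ^ j) :=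
      Real.log_le_log (by exact_mod_cast hfib) (fib_le_pow j)
    rw [Real.log_pow] at h4
    have h5 : Real.log Real.goldenRatio ≤ 1 := by
      have h6 := Real.log_le_log Real.goldenRatio_pos Real.goldenRatio_lt_two.le
      have := Real.log_two_lt_d9
      linarith
    nlinarith
  calc ∑ p ∈ S, 1 / (p : ℝ) ≤ ∑ _p ∈ S, 1 / ((j : ℝ) - 1) := by
        apply Finset.sum_le_sum
        intro p hp
        apply one_div_le_one_div_of_le hq0
        rw [← hcast]
        exact_mod_cast hbig p hp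
    _ = S.card / ((j : ℝ) - 1) := by rw [sum_const, nsmul_eq_mul]; ring
    _ ≤ _ := by
        rw [div_le_div_iff₀ hq0 hlq]
        linarith

theorem prod_ge (s : Finset ℕ) (hs : ∀ p ∈ s, 1 ≤ p) :
    1 - ∑ p ∈ s, 1 / (p : ℝ) ≤ ∏ p ∈ s, (1 - 1 / (p : ℝ)) := by
  induction s using Finset.induction_on with
  | empty => simp
  | insert a s ha ih =>
    rw [Finset.sum_insert ha, Finset.prod_insert ha]
    have h1 := ih (fun p hp => hs p (mem_insert_of_mem hp))
    have h2 : (1 : ℝ) ≤ a := by exact_mod_cast hs a (mem_insert_self _ _)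
    have h3 : 1 / (a : ℝ) ≤ 1 := by rw [div_le_one (by linarith)]; exact h2
    have h4 : 0 ≤ 1 / (a : ℝ) := by positivity
    have h5 : 0 ≤ ∑ p ∈ s, 1 / (p : ℝ) := Finset.sum_nonneg (fun p _ => by positivity)
    nlinarith

theorem coprime_m {j m Q : ℕ} (hj : j.Prime) (hQ : ∀ p : ℕ, p.Prime → p ∣ m → p ≤ Q) (hQj : Q + 1 < j) :
    Nat.Coprime (Nat.fib j) m := by
  rw [Nat.coprime_iff_gcd_eq_one]
  by_contra hne
  obtain ⟨p, hp, hpd⟩ := Nat.exists_prime_and_dvd hne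
  have h1 : p ∣ Nat.fib j := hpd.trans (Nat.gcd_dvd_left _ _)
  have h2 : p ∣ m := hpd.trans (Nat.gcd_dvd_right _ _)
  have h3 := prime_factor hj hp h1
  have h4 := hQ p hp h2
  omega

theorem tot_eq (d : ℕ) (hd : 1 ≤ d) :
    (Nat.totient d : ℝ) / d = ∏ p ∈ d.primeFactors, (1 - 1 / (p : ℝ)) := by
  have hdR : (d : ℝ) ≠ 0 := by
    have : d ≠ 0 := by omega
    exact_mod_cast this
  have h2 := Nat.totient_eq_mul_prod_factors d
  have h3 : ((Nat.totient d : ℚ) : ℝ) = ((d * ∏ p ∈ d.primeFactors, (1 - (p : ℚ)⁻¹) : ℚ) : ℝ) := by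
    rw [h2]
  push_cast at h3
  rw [h3, mul_div_cancel_left₀ _ hdR]
  apply Finset.prod_congr rfl
  intro p _
  rw [one_div]

theorem tot_m {m Q : ℕ} (hm : 1 ≤ m) (hQ : ∀ p : ℕ, p.Prime → p ∣ m → p ≤ Q) :
    (1 / 2 : ℝ) ^ (Q + 1) ≤ (Nat.totient m : ℝ) / m := by
  rw [tot_eq m hm]
  have hsub : m.primeFactors ⊆ Finset.range (Q + 1) := by
    intro p hp
    rw [Nat.mem_primeFactors] at hp
    rw [Finset.mem_range]
    have := hQ p hp.1 hp.2.1
    omega
  have hcard : m.primeFactors.card ≤ Q + 1 := by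
    have := Finset.card_le_card hsub
    rwa [Finset.card_range] at this
  calc (1 / 2 : ℝ) ^ (Q + 1) ≤ (1 / 2 : ℝ) ^ m.primeFactors.card :=
        pow_le_pow_of_le_one (by norm_num) (by norm_num) hcard
    _ = ∏ _p ∈ m.primeFactors, (1 / 2 : ℝ) := by rw [prod_const]
    _ ≤ _ := by
        apply Finset.prod_le_prod
        · intro p _; norm_num
        · intro p hp
          have h1 : (2 : ℝ) ≤ p := by exact_mod_cast (Nat.prime_of_mem_primeFactors hp).two_le
          have h2 : 1 / (p : ℝ) ≤ 1 / 2 := one_div_le_one_div_of_le (by norm_num) h1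
          linarith

/-- lower bound for `φ(d) / d`, `d = F_j m` -/
theorem tot_ge {j m Q : ℕ} (hj : j.Prime) (hj5 : 5 ≤ j) (hm : 1 ≤ m)
    (hQ : ∀ p : ℕ, p.Prime → p ∣ m → p ≤ Q) (hQj : Q + 1 < j)
    (hlog : 2 / Real.log ((j : ℝ) - 1) ≤ 1 / 2) :
    1 / 2 * (1 / 2 : ℝ) ^ (Q + 1) ≤ (Nat.totient (Nat.fib j * m) : ℝ) / ((Nat.fib j * m : ℕ) : ℝ) := by
  have hfib : 0 < Nat.fib j := Nat.fib_pos.2 (by omega)
  rw [Nat.totient_mul (coprime_m hj hQ hQj)]
  push_cast
  rw [mul_div_mul_comm]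
  have h1 : 1 / 2 ≤ (Nat.totient (Nat.fib j) : ℝ) / (Nat.fib j : ℝ) := by
    rw [tot_eq _ hfib]
    have h4 := prod_ge (Nat.fib j).primeFactors
      (fun p hp => (Nat.prime_of_mem_primeFactors hp).one_lt.le)
    have h5 := fib_sum hj hj5
    linarith
  exact mul_le_mul h1 (tot_m hm hQ) (by positivity) (by linarith)

/-- the large prime factors of `d = F_j m` -/
theorem large_sum {j m Q : ℕ} (hj : j.Prime) (hj5 : 5 ≤ j)
    (hQ : ∀ p : ℕ, p.Prime → p ∣ m → p ≤ Q) (T : ℝ) (hT : (Q : ℝ) ≤ T) :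
    ∑ p ∈ (Nat.fib j * m).primeFactors with T < ((p : ℕ) : ℝ), 1 / ((p : ℕ) : ℝ) ≤
      2 / Real.log ((j : ℝ) - 1) := by
  refine le_trans ?_ (fib_sum hj hj5)
  apply Finset.sum_le_sum_of_subset_of_nonneg
  · intro p hp
    rw [mem_filter, Nat.mem_primeFactors] at hp
    obtain ⟨⟨hp1, hp2, hp3⟩, hp4⟩ := hp
    have h1 : ¬ p ∣ m := by
      intro h
      have h2 : (p : ℝ) ≤ Q := by exact_mod_cast hQ p hp1 h
      linarith
    rw [Nat.mem_primeFactors]
    exact ⟨hp1, (hp1.dvd_mul.1 hp2).resolve_right h1, (Nat.fib_pos.2 (by omega)).ne'⟩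
  · intro p _ _
    positivity

end Pool.Agent.helper159_ZK
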