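import Mathlib
import Pool.Agent.helper159_ZK.Zeck
import Pool.Agent.helper159_ZK.Fib
import Pool.Agent.helper159_ZK.Ana

set_option autoImplicit false

/-! Record gaps around integers with prescribed first and last Zeckendorf digits. -/

namespace Pool.Agent.helper159_ZK

open Filter

/-- the statement of the theorem on record gaps around integers of a residue class -/
def Base : Prop := ∀ δ A : ℝ, 0 < δ → δ < 1 → 0 ≤ A → ∃ c : ℝ, 0 < c ∧ ∃ x₀ : ℝ, ∀ x : ℝ, x₀ ≤ x →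
    ∀ d : ℕ, 1 ≤ d → (d : ℝ) ≤ x ^ (1 - δ) →
    (∑ p ∈ d.primeFactors with
      Real.exp (Real.log (Real.log x) * Real.log (Real.log (Real.log (Real.log x))) /
        (20 * Real.log (Real.log (Real.log x)))) < ((p : ℕ) : ℝ), 1 / ((p : ℕ) : ℝ)) ≤
      A / Real.log (Real.log x) →
    ∀ a z : ℕ, ∃ n : ℕ, n ≡ a [MOD d] ∧ z < n ∧ (n : ℝ) ≤ z + x ∧
      ∀ p : ℕ, p.Prime →
        c * ((Nat.totient d : ℝ) / d * (Real.log x * (Real.log (Real.log x)) ^ 2 *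
          Real.log (Real.log (Real.log (Real.log x))) / (Real.log (Real.log (Real.log x))) ^ 2)) <
        |(p : ℝ) - n|

/-- the conditions on `X = φ ^ k m ^ 2`, `K = log X / log φ` -/
theorem conds (e lφ x₀ X₁ R Y : ℝ) (Q : ℕ) (he : 0 < e) (hl0 : 0 < lφ) : ∀ᶠ X : ℝ in atTop,
    1 ≤ X ∧ max x₀ X₁ ≤ X ∧ R ≤ Real.log X ∧ 3 ≤ Real.log X ∧ 64 ≤ e * (Real.log X / lφ) ∧
    Y ≤ Real.log X / lφ / 2 ∧ (Q : ℝ) + 3 ≤ Real.log X / lφ / 2 ∧
    4 ≤ Real.log (Real.log X / lφ / 2) := by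
  have hlog := Real.tendsto_log_atTop
  have hK : Tendsto (fun X : ℝ => Real.log X / lφ) atTop atTop := hlog.atTop_div_const hl0
  have hK2 : Tendsto (fun X : ℝ => Real.log X / lφ / 2) atTop atTop := hK.atTop_div_const (by norm_num)
  have hK3 : Tendsto (fun X : ℝ => Real.log (Real.log X / lφ / 2)) atTop atTop := hlog.comp hK2
  filter_upwards [eventually_ge_atTop 1, eventually_ge_atTop (max x₀ X₁), hlog.eventually_ge_atTop R,
    hlog.eventually_ge_atTop 3, hK.eventually_ge_atTop (64 / e), hK2.eventually_ge_atTop Y,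
    hK2.eventually_ge_atTop ((Q : ℝ) + 3), hK3.eventually_ge_atTop 4] with X a1 a2 a3 a4 a5 a6 a7 a8
  refine ⟨a1, a2, a3, a4, ?_, a6, a7, a8⟩
  rw [div_le_iff₀ he] at a5
  linarith

/-- the choice of `j` and `L` -/
theorem choice {e K k μ r Y : ℝ} (he0 : 0 < e) (he1 : e ≤ 1) (hk : 0 ≤ k) (hμ : 0 ≤ μ)
    (hK : K = k + 2 * μ) (h64 : 64 ≤ e * K) (hY : Y ≤ K / 2) (hr : (1 + e) * K ≤ r)
    (hP : ∀ y : ℝ, Y ≤ y → ∃ p : ℕ, p.Prime ∧ y < p ∧ (p : ℝ) ≤ (1 + e / 8) * y) :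
    ∃ j L : ℕ, j.Prime ∧ k + L + 4 ≤ (j : ℝ) ∧ (1 : ℝ) ≤ L ∧ (j : ℝ) + L + 1 ≤ r ∧
      (L : ℝ) + j ≤ 2 * K ∧ e * K / 16 + μ ≤ (L : ℝ) - 2 ∧ K / 2 + 1 ≤ (j : ℝ) ∧
      k + μ + 2 ≤ (j : ℝ) - 2 := by
  have hK0 : 0 < K := by
    by_contra hcon
    push Not at hcon
    nlinarith
  have hK64 : 64 ≤ K := by nlinarith
  have hkK : K / 2 ≤ k + μ := by rw [hK]; linarith
  have hkK2 : k + μ ≤ K := by rw [hK]; linarith
  obtain ⟨j, hj, hj1, hj2⟩ := hP (k + μ + e * K / 4) (by nlinarith)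
  have hj3 : (j : ℝ) ≤ k + μ + 13 / 32 * (e * K) := by
    refine hj2.trans ?_
    have h1 : e * (k + μ) ≤ e * K := mul_le_mul_of_nonneg_left hkK2 he0.le
    have h2 : e * (e * K) ≤ 1 * (e * K) := mul_le_mul_of_nonneg_right he1 (by positivity)
    nlinarith
  set L : ℕ := ⌊e * K / 8 + μ⌋₊ with hL
  have hL1 : (L : ℝ) ≤ e * K / 8 + μ := Nat.floor_le (by positivity)
  have hL2 : e * K / 8 + μ < L + 1 := Nat.lt_floor_add_one _
  have heK : e * K ≤ 1 * K := mul_le_mul_of_nonneg_right he1 hK0.le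
  refine ⟨j, L, hj, by linarith, by linarith, ?_, ?_, by linarith, by linarith, by linarith⟩
  · refine le_trans ?_ hr
    linarith
  · linarith

theorem main (hbase : Base) (ε : ℝ) (hε : 0 < ε) (Q : ℕ) :
    ∃ κ : ℝ, 0 < κ ∧ ∃ X₀ : ℝ, ∀ k m r : ℕ, 1 ≤ m → (∀ p : ℕ, p.Prime → p ∣ m → p ≤ Q) →
      X₀ ≤ Real.goldenRatio ^ k * (m : ℝ) ^ 2 →
      (Real.goldenRatio ^ k * (m : ℝ) ^ 2) ^ (1 + ε) ≤ Real.goldenRatio ^ r → ∀ A B a : ℕ,
      (∀ i ∈ A.zeckendorf, r ≤ i) → (∀ i ∈ B.zeckendorf, i ≤ k) →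
      ∃ (n : ℕ) (C : List ℕ), n.zeckendorf = A.zeckendorf ++ C ++ B.zeckendorf ∧
        (∀ i ∈ C, k < i ∧ i < r) ∧ n ≡ a [MOD m] ∧
        ∀ p : ℕ, p.Prime → κ * F (Real.log (Real.goldenRatio ^ k * (m : ℝ) ^ 2)) < |(p : ℝ) - n| := by
  set ε₁ : ℝ := min ε 1 with hε₁
  have e0 : 0 < ε₁ := lt_min hε one_pos
  have e1 : ε₁ ≤ 1 := min_le_right _ _
  have e2 : ε₁ ≤ ε := min_le_left _ _
  clear_value ε₁
  set lφ : ℝ := Real.log Real.goldenRatio with hlφ
  have hl0 : 0 < lφ := log_phi_pos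
  have hl1 : lφ ≤ 1 := log_phi_le
  obtain ⟨c, hc, x₀, hbb⟩ := hbase (ε₁ / 32) 4 (by positivity) (by linarith) (by norm_num)
  obtain ⟨R, hR⟩ := F_mono
  obtain ⟨X₁, hX₁⟩ := eventually_atTop.1 (thr_large (Q : ℝ))
  obtain ⟨Y, hY⟩ := eventually_atTop.1 (exists_prime_Ioc (ε₁ / 8) (by positivity))
  obtain ⟨X₀, hX₀⟩ := eventually_atTop.1 (conds ε₁ lφ x₀ X₁ R Y Q e0 hl0)
  refine ⟨c * (1 / 2 * (1 / 2 : ℝ) ^ (Q + 1)) / 4, by positivity, X₀,
    fun k m r hm hQ hX hr A B a hA hB => ?_⟩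
  have hm1 : (1 : ℝ) ≤ m := by exact_mod_cast hm
  have hmR : (0 : ℝ) < m := by linarith
  have hkR : (0 : ℝ) ≤ k := Nat.cast_nonneg k
  obtain ⟨c1, c2, c3, c4, c5, c6, c7, c8⟩ := hX₀ _ hX
  have hXpos : 0 < Real.goldenRatio ^ k * (m : ℝ) ^ 2 := by
    have := Real.goldenRatio_pos
    positivity
  set μ : ℝ := Real.log m / lφ with hμ
  have hμ0 : 0 ≤ μ := div_nonneg (Real.log_nonneg hm1) hl0.le
  have hμl : μ * lφ = Real.log m := div_mul_cancel₀ _ hl0.ne'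
  have hlX : Real.log (Real.goldenRatio ^ k * (m : ℝ) ^ 2) = ((k : ℝ) + 2 * μ) * lφ := by
    rw [Real.log_mul (pow_pos Real.goldenRatio_pos k).ne' (by positivity), Real.log_pow,
      Real.log_pow, ← hlφ, add_mul, mul_assoc 2 μ lφ, hμl]
    push_cast
    ring
  set X : ℝ := Real.goldenRatio ^ k * (m : ℝ) ^ 2 with hXdef
  set K : ℝ := (k : ℝ) + 2 * μ with hK
  have hKX : Real.log X / lφ = K := by rw [hlX, mul_div_cancel_right₀ _ hl0.ne']
  rw [hKX] at c5 c6 c7 c8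
  have hK0 : 0 ≤ K := by positivity
  have hrK : (1 + ε₁) * K ≤ r := by
    have h1 := Real.log_le_log (Real.rpow_pos_of_pos hXpos _) hr
    rw [Real.log_rpow hXpos, Real.log_pow, ← hlφ, hlX, ← mul_assoc] at h1
    have h2 := le_of_mul_le_mul_right h1 hl0
    have h3 : (1 + ε₁) * K ≤ (1 + ε) * K := mul_le_mul_of_nonneg_right (by linarith) hK0
    linarith
  obtain ⟨j, L, hj, d1, d2, d3, d4, d5, d6, d7⟩ := choice e0 e1 hkR hμ0 hK c5 c6 hrK hY
  have hkLj : k + L + 4 ≤ j := by exact_mod_cast d1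
  have hL7 : 1 ≤ L := by exact_mod_cast d2
  have hjLr : j + L + 1 ≤ r := by exact_mod_cast d3
  have hj5 : 5 ≤ j := by omega
  have hQj : Q + 1 < j := by
    have h1 : (Q : ℝ) + 1 < j := by linarith
    exact_mod_cast h1
  -- logarithms
  have hfL : 0 < Nat.fib L := Nat.fib_pos.2 (by omega)
  have hfj : 0 < Nat.fib j := Nat.fib_pos.2 (by omega)
  have hfLR : (0 : ℝ) < Nat.fib L := by exact_mod_cast hfL
  have hfjR : (0 : ℝ) < Nat.fib j := by exact_mod_cast hfj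
  set La : ℝ := Real.log (Nat.fib L) with hLa
  set Lb : ℝ := Real.log (Nat.fib j) with hLb
  have hLa1 : (ε₁ * K / 16 + μ) * lφ ≤ La :=
    le_trans (mul_le_mul_of_nonneg_right d5 hl0.le) (log_fib_ge L hL7)
  have hLa2 : La ≤ L * lφ := log_fib_le L hL7
  have hLb1 : (k + μ + 2) * lφ ≤ Lb :=
    le_trans (mul_le_mul_of_nonneg_right d7 hl0.le) (log_fib_ge j (by omega))
  have hLb2 : Lb ≤ j * lφ := log_fib_le j (by omega)
  set x : ℝ := ((Nat.fib L * Nat.fib j : ℕ) : ℝ) with hx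
  have hx0 : 0 < x := by rw [hx]; exact_mod_cast Nat.mul_pos hfL hfj
  have hlx : Real.log x = La + Lb := by
    rw [hx]; push_cast; rw [Real.log_mul hfLR.ne' hfjR.ne']
  have hlxj : Real.log x ≤ (L + j) * lφ := by rw [hlx, add_mul]; linarith
  have hlx2 : Real.log x ≤ 2 * Real.log X := by
    rw [hlX]
    have : ((L : ℝ) + j) * lφ ≤ 2 * K * lφ := mul_le_mul_of_nonneg_right d4 hl0.le
    linarith
  have hlx1 : Real.log X ≤ Real.log x := by
    rw [hlX, hlx, hK]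
    have h1 : 0 ≤ ε₁ * K / 16 * lφ := by positivity
    have h2 : (ε₁ * K / 16 + μ) * lφ = ε₁ * K / 16 * lφ + μ * lφ := by ring
    have h3 : ((k : ℝ) + μ + 2) * lφ = k * lφ + μ * lφ + 2 * lφ := by ring
    have h4 : ((k : ℝ) + 2 * μ) * lφ = k * lφ + μ * lφ + μ * lφ := by ring
    linarith
  have hxX : X ≤ x := (Real.log_le_log_iff hXpos hx0).1 hlx1
  have hxx₀ : x₀ ≤ x := (le_max_left _ _).trans (c2.trans hxX)
  have hxX₁ : X₁ ≤ x := (le_max_right _ _).trans (c2.trans hxX)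
  -- the modulus
  have hd1 : 1 ≤ Nat.fib j * m := Nat.mul_pos hfj (by omega)
  have hdR : (0 : ℝ) < ((Nat.fib j * m : ℕ) : ℝ) := by exact_mod_cast hd1
  have hdx : ((Nat.fib j * m : ℕ) : ℝ) ≤ x ^ (1 - ε₁ / 32) := by
    rw [← Real.log_le_log_iff hdR (Real.rpow_pos_of_pos hx0 _), Real.log_rpow hx0]
    push_cast
    rw [Real.log_mul hfjR.ne' hmR.ne', ← hLb, ← hμl]
    have h1 : ε₁ / 32 * Real.log x ≤ ε₁ / 32 * (2 * (K * lφ)) := by
      apply mul_le_mul_of_nonneg_left _ (by positivity)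
      rw [← hlX]; exact hlx2
    have h2 : ε₁ / 32 * (2 * (K * lφ)) = ε₁ * K / 16 * lφ := by ring
    have h3 : (1 - ε₁ / 32) * Real.log x = Real.log x - ε₁ / 32 * Real.log x := by ring
    have h4 : (ε₁ * K / 16 + μ) * lφ = ε₁ * K / 16 * lφ + μ * lφ := by ring
    rw [h3]
    linarith
  have hj1 : (4 : ℝ) ≤ (j : ℝ) - 1 := by
    have : (5 : ℝ) ≤ j := by exact_mod_cast hj5
    linarith
  have hlx0 : 1 < Real.log x := by linarith
  have hsum : (∑ p ∈ (Nat.fib j * m).primeFactors with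
      Real.exp (Real.log (Real.log x) * Real.log (Real.log (Real.log (Real.log x))) /
        (20 * Real.log (Real.log (Real.log x)))) < ((p : ℕ) : ℝ), 1 / ((p : ℕ) : ℝ)) ≤
      4 / Real.log (Real.log x) := by
    refine (large_sum hj hj5 hQ _ (hX₁ x hxX₁)).trans ?_
    have h1 : 0 < Real.log ((j : ℝ) - 1) := Real.log_pos (by linarith)
    have h2 : 0 < Real.log (Real.log x) := Real.log_pos hlx0
    have h3 : Real.log x ≤ ((j : ℝ) - 1) ^ 2 := by
      have h4 : (L + j : ℝ) * lφ ≤ (L + j) * 1 := mul_le_mul_of_nonneg_left hl1 (by positivity)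
      have h5 : (L : ℝ) + j ≤ 2 * (j - 1) := by linarith
      have h6 : 2 * ((j : ℝ) - 1) ≤ ((j : ℝ) - 1) ^ 2 := by
        rw [pow_two]; exact mul_le_mul_of_nonneg_right (by linarith) (by linarith)
      linarith
    have h5 : Real.log (Real.log x) ≤ 2 * Real.log ((j : ℝ) - 1) := by
      have := Real.log_le_log (by linarith) h3
      rw [Real.log_pow] at this
      push_cast at this
      exact this
    rw [div_le_div_iff₀ h1 h2]
    linarith
  obtain ⟨c₀, hc1, hc2⟩ := Nat.chineseRemainder (coprime_m hj hQ hQj) (A + B) a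
  obtain ⟨n, hn1, hn2, hn3, hn4⟩ := hbb x hxx₀ (Nat.fib j * m) hd1 hdx hsum c₀ (A + B)
  have hnz : n ≡ A + B [MOD Nat.fib j] := (hn1.of_dvd (Dvd.intro _ rfl)).trans hc1
  have hna : n ≡ a [MOD m] := (hn1.of_dvd (Dvd.intro_left _ rfl)).trans hc2
  obtain ⟨t, ht⟩ := (Nat.modEq_iff_dvd' hn2.le).1 hnz.symm
  have hnt : n = A + t * Nat.fib j + B := by
    rw [mul_comm] at ht; omega
  have ht1 : 1 ≤ t := by
    rcases Nat.eq_zero_or_pos t with h | h
    · rw [h] at hnt; omega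
    · exact h
  have htL : t ≤ Nat.fib L := by
    have h1 : (n : ℝ) ≤ ((A + B + Nat.fib L * Nat.fib j : ℕ) : ℝ) := by
      rw [Nat.cast_add]; exact hn3
    have h2 : n ≤ A + B + Nat.fib L * Nat.fib j := by exact_mod_cast h1
    have h3 : t * Nat.fib j ≤ Nat.fib L * Nat.fib j := by omega
    exact Nat.le_of_mul_le_mul_right h3 hfj
  have hrange := mult_range j L t ht1 htL (by omega)
  refine ⟨n, (t * Nat.fib j).zeckendorf, ?_, ?_, hna, ?_⟩
  · rw [hnt]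
    refine concat (k := k) (r := r) hA hB ?_ (by omega)
    intro i hi
    have := hrange i hi
    constructor <;> omega
  · intro i hi
    have h1 := hrange i hi
    constructor <;> omega
  · intro p hp
    refine lt_of_le_of_lt ?_ (hn4 p hp)
    obtain ⟨hF0, hF1⟩ := hR (Real.log X) c3 (Real.log x) hlx1 hlx2
    have hlogj : 2 / Real.log ((j : ℝ) - 1) ≤ 1 / 2 := by
      have h1 : 4 ≤ Real.log ((j : ℝ) - 1) :=
        c8.trans (Real.log_le_log (by linarith) (by linarith))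
      rw [div_le_div_iff₀ (by linarith) (by norm_num)]
      linarith
    have htot := tot_ge hj hj5 hm hQ hQj hlogj
    have hFx : Real.log x * Real.log (Real.log x) ^ 2 *
        Real.log (Real.log (Real.log (Real.log x))) /
          Real.log (Real.log (Real.log x)) ^ 2 = F (Real.log x) := rfl
    rw [hFx]
    calc c * (1 / 2 * (1 / 2 : ℝ) ^ (Q + 1)) / 4 * F (Real.log X)
        = c * ((1 / 2 * (1 / 2 : ℝ) ^ (Q + 1)) * (F (Real.log X) / 4)) := by ring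
      _ ≤ c * ((Nat.totient (Nat.fib j * m) : ℝ) / ((Nat.fib j * m : ℕ) : ℝ) * F (Real.log x)) := by
          apply mul_le_mul_of_nonneg_left _ hc.le
          exact mul_le_mul htot (by linarith) (by linarith) (le_trans (by positivity) htot)

end Pool.Agent.helper159_ZK
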